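import Pool.Agent.Y782.WU.Stm

/-!
# Project WU: measurability of the forests
-/

set_option autoImplicit false

open MeasureTheory ProbabilityTheory Filter Topology
open scoped ENNReal NNReal BigOperators unitInterval
open Pool.Agent.Y782.WU

namespace Pool.Agent.Y371.WU

section gen
variable {V Ω : Type} [MeasurableSpace Ω]

theorem meas_adj (x y : V) : Measurable fun G : SimpleGraph V => G.Adj x y := by
  have h : Measurable fun G : SimpleGraph V => (fun (x y : V) => G.Adj x y) :=
    comap_measurable _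
  exact (measurable_pi_apply y).comp ((measurable_pi_apply x).comp h)

theorem meas_adj' {f : Ω → SimpleGraph V} (hf : Measurable f) (x y : V) :
    Measurable fun ω => (f ω).Adj x y := (meas_adj x y).comp hf

theorem meas_graph {f : Ω → SimpleGraph V} (hf : ∀ x y, Measurable fun ω => (f ω).Adj x y) :
    Measurable f := by
  refine Measurable.of_comap_le ?_
  rw [gms, MeasurableSpace.comap_comp]
  refine Measurable.comap_le ?_
  exact measurable_pi_lambda _ fun x => measurable_pi_lambda _ fun y => hf x y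

/-- connection by a walk of `n` steps -/
def Rn (G : SimpleGraph V) : ℕ → V → V → Prop
  | 0, x, y => x = y
  | n + 1, x, y => ∃ z, G.Adj x z ∧ Rn G n z y

theorem reach_iff (G : SimpleGraph V) (x y : V) : G.Reachable x y ↔ ∃ n, Rn G n x y := by
  constructor
  · rintro ⟨w⟩
    induction w with
    | nil => exact ⟨0, rfl⟩
    | cons h _ ih =>
      obtain ⟨n, hn⟩ := ih
      exact ⟨n + 1, _, h, hn⟩
  · rintro ⟨n, hn⟩
    induction n generalizing x with
    | zero =>
      have : x = y := hn
      rw [this]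
    | succ n ih =>
      obtain ⟨z, hz, hn⟩ := hn
      exact hz.reachable.trans (ih z hn)

theorem meas_reach [Countable V] {f : Ω → SimpleGraph V} (hf : Measurable f) (x y : V) :
    Measurable fun ω => (f ω).Reachable x y := by
  have h1 : ∀ (n : ℕ) (x : V), Measurable fun ω => Rn (f ω) n x y := by
    intro n
    induction n with
    | zero =>
      intro x
      exact measurable_const
    | succ n ih =>
      intro x
      exact Measurable.exists fun z => (meas_adj' hf x z).and (ih z)
  have h2 : (fun ω => (f ω).Reachable x y) = fun ω => ∃ n, Rn (f ω) n x y := by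
    funext ω
    exact propext (reach_iff (f ω) x y)
  rw [h2]
  exact Measurable.exists fun n => h1 n x

theorem ncard_iff (S : Set V) (j : ℕ) : Set.ncard S = j ↔
    (∃ F : Finset V, F.card = j ∧ ∀ z, (z ∈ S ↔ z ∈ F)) ∨
      (j = 0 ∧ ¬ ∃ F : Finset V, ∀ z, (z ∈ S ↔ z ∈ F)) := by
  by_cases hS : S.Finite
  · constructor
    · intro h
      refine Or.inl ⟨hS.toFinset, ?_, fun z => by simp⟩
      rw [← h, Set.ncard_eq_toFinset_card S hS]
    · rintro (⟨F, hF, h⟩ | ⟨_, h⟩)
      · have : S = (F : Set V) := by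
          ext z
          exact h z
        rw [this, Set.ncard_coe_finset, hF]
      · exact absurd ⟨hS.toFinset, fun z => by simp⟩ h
  · have h1 : ¬ ∃ F : Finset V, ∀ z, (z ∈ S ↔ z ∈ F) := by
      rintro ⟨F, hF⟩
      apply hS
      have : S = (F : Set V) := by
        ext z
        exact hF z
      rw [this]
      exact F.finite_toSet
    have h2 : Set.ncard S = 0 := Set.Infinite.ncard hS
    rw [h2]
    constructor
    · intro h
      exact Or.inr ⟨h.symm, h1⟩
    · rintro (⟨F, hF, h⟩ | ⟨h, _⟩)
      · exact absurd ⟨F, h⟩ h1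
      · exact h.symm

theorem meas_ncard [Countable V] {S : Ω → Set V} (hS : ∀ z, Measurable fun ω => z ∈ S ω) (j : ℕ) :
    Measurable fun ω => Set.ncard (S ω) = j := by
  have h2 : (fun ω => Set.ncard (S ω) = j) = fun ω =>
      ((∃ F : Finset V, F.card = j ∧ ∀ z, (z ∈ S ω ↔ z ∈ F)) ∨
      (j = 0 ∧ ¬ ∃ F : Finset V, ∀ z, (z ∈ S ω ↔ z ∈ F))) := by
    funext ω
    exact propext (ncard_iff (S ω) j)
  rw [h2]
  refine Measurable.or (Measurable.exists fun F => measurable_const.and
    (Measurable.forall fun z => (hS z).iff measurable_const)) (measurable_const.and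
    (Measurable.exists fun F => Measurable.forall fun z => (hS z).iff measurable_const).not)

end gen

section step
variable {V Ω : Type} [MeasurableSpace Ω] [Countable V]

theorem meas_rk {H : Ω → SimpleGraph V} {o : Ω → V → I} (hH : Measurable H) (ho : Measurable o)
    (x w : V) (j : ℕ) : Measurable fun ω => rk (H ω) (o ω) x w = j := by
  unfold rk
  refine meas_ncard (fun z => ?_) j
  refine (meas_reach hH x z).and ?_
  have h1 : Measurable fun ω => o ω z := (measurable_pi_apply z).comp ho
  have h2 : Measurable fun ω => o ω w := (measurable_pi_apply w).comp ho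
  exact measurableSet_setOfPred.mp (measurableSet_lt h1 h2)

theorem meas_cls {H : Ω → SimpleGraph V} (hH : Measurable H) (x : V) (k : ℕ) :
    Measurable fun ω => Set.ncard (cls (H ω) x) = k :=
  meas_ncard (fun z => meas_reach hH x z) k

/-- `pull` with a number `k` of vertices -/
def pl (H : SimpleGraph V) (o : V → I) (x : V) (A : SimpleGraph V) (k : ℕ) :
    SimpleGraph (Fin k) :=
  SimpleGraph.fromRel (fun a b => ∃ v w, H.Reachable x v ∧ H.Reachable x w ∧
    rk H o x v = (a : ℕ) ∧ rk H o x w = (b : ℕ) ∧ A.Adj v w)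

theorem meas_pl {H A : Ω → SimpleGraph V} {o : Ω → V → I} (hH : Measurable H)
    (hA : Measurable A) (ho : Measurable o) (x : V) (k : ℕ) (h : SimpleGraph (Fin k)) :
    Measurable fun ω => pl (H ω) (o ω) x (A ω) k = h := by
  have h2 : (fun ω => pl (H ω) (o ω) x (A ω) k = h) = fun ω =>
      ∀ a b, ((pl (H ω) (o ω) x (A ω) k).Adj a b ↔ h.Adj a b) := by
    funext ω
    refine propext ⟨fun h1 a b => by rw [h1], fun h1 => ?_⟩
    ext a b
    exact h1 a b
  rw [h2]
  have h3 : ∀ a b : Fin k, Measurable fun ω => (∃ v w, (H ω).Reachable x v ∧ (H ω).Reachable x w ∧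
      rk (H ω) (o ω) x v = (a : ℕ) ∧ rk (H ω) (o ω) x w = (b : ℕ) ∧ (A ω).Adj v w) := fun a b =>
    Measurable.exists fun v => Measurable.exists fun w => (meas_reach hH x v).and
      ((meas_reach hH x w).and ((meas_rk hH ho x v a).and ((meas_rk hH ho x w b).and
        (meas_adj' hA v w))))
  refine Measurable.forall fun a => Measurable.forall fun b => Measurable.iff ?_ measurable_const
  simp only [pl, SimpleGraph.fromRel_adj]
  exact measurable_const.and ((h3 a b).or (h3 b a))

omit [Countable V] in
theorem meas_ker {Kf : KT} (hK : IsKer Kf) {u : Ω → V → I} (hu : Measurable u) (m : V)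
    (k : ℕ) (h h' t : SimpleGraph (Fin k)) (a b : Fin k) :
    Measurable fun ω => (Kf k h h' t (u ω m)).Adj a b := by
  have h1 : Measurable fun ω => u ω m := (measurable_pi_apply m).comp hu
  have h2 : Measurable fun r : I => (Kf k h h' t r).Adj a b := by
    have h3 : (fun r : I => (Kf k h h' t r).Adj a b) = fun r =>
        ∃ t' : SimpleGraph (Fin k), Kf k h h' t r = t' ∧ t'.Adj a b := by
      funext r
      exact propext ⟨fun h4 => ⟨_, rfl, h4⟩, fun ⟨t', h4, h5⟩ => by rw [h4]; exact h5⟩
    rw [h3]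
    exact Measurable.exists fun t' =>
      (measurableSet_setOfPred.mp (hK.meas k h h' t t')).and measurable_const
  exact h2.comp h1

theorem meas_step {Kf : KT} (hK : IsKer Kf) {H H' T : Ω → SimpleGraph V} {o u : Ω → V → I}
    (hH : Measurable H) (hH' : Measurable H') (hT : Measurable T) (ho : Measurable o)
    (hu : Measurable u) :
    Measurable fun ω => stepT Kf (H ω) (H' ω) (T ω) (o ω) (u ω) := by
  have key : ∀ x y : V, Measurable fun ω => ((H' ω).Reachable x y ∧ ∃ m, (H' ω).Reachable x m ∧
      rk (H' ω) (o ω) x m = 0 ∧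
      ∃ a b : Fin (Set.ncard (cls (H' ω) x)), rk (H' ω) (o ω) x x = (a : ℕ) ∧
        rk (H' ω) (o ω) x y = (b : ℕ) ∧
        (Kf _ (pull (H' ω) (o ω) x (H ω)) (pull (H' ω) (o ω) x (H' ω)) (pull (H' ω) (o ω) x (T ω))
          (u ω m)).Adj a b) := by
    intro x y
    have h1 : ∀ ω, (∃ m, (H' ω).Reachable x m ∧ rk (H' ω) (o ω) x m = 0 ∧
      ∃ a b : Fin (Set.ncard (cls (H' ω) x)), rk (H' ω) (o ω) x x = (a : ℕ) ∧
        rk (H' ω) (o ω) x y = (b : ℕ) ∧
        (Kf _ (pull (H' ω) (o ω) x (H ω)) (pull (H' ω) (o ω) x (H' ω)) (pull (H' ω) (o ω) x (T ω))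
          (u ω m)).Adj a b) ↔
        (∃ m, (H' ω).Reachable x m ∧ rk (H' ω) (o ω) x m = 0 ∧ ∃ k : ℕ,
          ∃ h h' t : SimpleGraph (Fin k), ∃ a b : Fin k, Set.ncard (cls (H' ω) x) = k ∧
          pl (H' ω) (o ω) x (H ω) k = h ∧ pl (H' ω) (o ω) x (H' ω) k = h' ∧
          pl (H' ω) (o ω) x (T ω) k = t ∧ rk (H' ω) (o ω) x x = (a : ℕ) ∧
          rk (H' ω) (o ω) x y = (b : ℕ) ∧ (Kf k h h' t (u ω m)).Adj a b) := by
      intro ω
      constructor
      · rintro ⟨m, hm1, hm2, a, b, ha, hb, hab⟩
        exact ⟨m, hm1, hm2, _, _, _, _, a, b, rfl, rfl, rfl, rfl, ha, hb, hab⟩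
      · rintro ⟨m, hm1, hm2, k, h, h', t, a, b, hk, h1, h2, h3, ha, hb, hab⟩
        subst hk
        subst h1
        subst h2
        subst h3
        exact ⟨m, hm1, hm2, a, b, ha, hb, hab⟩
    have h2 : (fun ω => ((H' ω).Reachable x y ∧ ∃ m, (H' ω).Reachable x m ∧
      rk (H' ω) (o ω) x m = 0 ∧
      ∃ a b : Fin (Set.ncard (cls (H' ω) x)), rk (H' ω) (o ω) x x = (a : ℕ) ∧
        rk (H' ω) (o ω) x y = (b : ℕ) ∧
        (Kf _ (pull (H' ω) (o ω) x (H ω)) (pull (H' ω) (o ω) x (H' ω)) (pull (H' ω) (o ω) x (T ω))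
          (u ω m)).Adj a b)) = fun ω => ((H' ω).Reachable x y ∧
        (∃ m, (H' ω).Reachable x m ∧ rk (H' ω) (o ω) x m = 0 ∧ ∃ k : ℕ,
          ∃ h h' t : SimpleGraph (Fin k), ∃ a b : Fin k, Set.ncard (cls (H' ω) x) = k ∧
          pl (H' ω) (o ω) x (H ω) k = h ∧ pl (H' ω) (o ω) x (H' ω) k = h' ∧
          pl (H' ω) (o ω) x (T ω) k = t ∧ rk (H' ω) (o ω) x x = (a : ℕ) ∧
          rk (H' ω) (o ω) x y = (b : ℕ) ∧ (Kf k h h' t (u ω m)).Adj a b)) := by
      funext ω
      rw [h1 ω]
    rw [h2]
    refine (meas_reach hH' x y).and (Measurable.exists fun m => (meas_reach hH' x m).and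
      ((meas_rk hH' ho x m 0).and (Measurable.exists fun k => Measurable.exists fun h =>
      Measurable.exists fun h' => Measurable.exists fun t => Measurable.exists fun a =>
      Measurable.exists fun b => (meas_cls hH' x k).and ((meas_pl hH' hH ho x k h).and
      ((meas_pl hH' hH' ho x k h').and ((meas_pl hH' hT ho x k t).and
      ((meas_rk hH' ho x x a).and ((meas_rk hH' ho x y b).and
      (meas_ker hK hu m k h h' t a b)))))))))
  refine meas_graph fun x y => ?_
  simp only [stepT, SimpleGraph.fromRel_adj]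
  exact measurable_const.and ((key x y).or (key y x))

end step

theorem ms3 : S_MS3 := by
  intro V _ Kf hK
  exact meas_step hK measurable_fst (measurable_fst.comp measurable_snd)
    (measurable_fst.comp (measurable_snd.comp measurable_snd))
    (measurable_fst.comp (measurable_snd.comp (measurable_snd.comp measurable_snd)))
    (measurable_snd.comp (measurable_snd.comp (measurable_snd.comp measurable_snd)))

theorem ms4 : S_MS4 := by
  intro V _ Kf hK
  have h1 : ∀ n : ℕ, Measurable (fun p : (ℕ → SimpleGraph V) × (V → I) × (ℕ → V → I) =>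
      Tn Kf p.1 p.2.1 p.2.2 n) := by
    intro n
    induction n with
    | zero => exact measurable_const
    | succ n ih =>
      simp only [Tn]
      exact meas_step hK ((measurable_pi_apply n).comp measurable_fst)
        ((measurable_pi_apply (n + 1)).comp measurable_fst) ih
        (measurable_fst.comp measurable_snd)
        ((measurable_pi_apply n).comp (measurable_snd.comp measurable_snd))
  have h2 : ∀ x y : V, Measurable (fun p : (ℕ → SimpleGraph V) × (V → I) × (ℕ → V → I) =>
      ∃ N, ∀ n ≥ N, (Tn Kf p.1 p.2.1 p.2.2 n).Adj x y) := by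
    intro x y
    refine Measurable.exists fun N => Measurable.forall fun n => ?_
    exact Measurable.forall fun _ => meas_adj' (h1 n) x y
  refine meas_graph fun x y => ?_
  simp only [Tlim, SimpleGraph.fromRel_adj]
  exact measurable_const.and ((h2 x y).or (h2 y x))

theorem ms4' : S_MS3 → S_MS4 := fun _ => ms4

end Pool.Agent.Y371.WU
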